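import Pool.Agent.Lib.MP_2f875b_anE.Main

/-! # `C^s` closing on the torus for fields tangent to a linear foliation by planes -/

set_option autoImplicit false

namespace Pool.Agent.Results.MP_2f875b_an.PlanarFoliation

open Clo

theorem result {n : ℕ} {r : WithTop ℕ∞} (hr : 1 ≤ r) (v w : EuclideanSpace ℝ (Fin n))
    {X : EuclideanSpace ℝ (Fin n) → EuclideanSpace ℝ (Fin n)} (hX : TorusField r X)
    (htan : ∀ x, X x ∈ Submodule.span ℝ {v, w}) (htr : ∀ x, X x ∉ Submodule.span ℝ {v})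
    {p : EuclideanSpace ℝ (Fin n)} (hp : Recurrent X p) (s : ℕ) (hs : (s : WithTop ℕ∞) ≤ r)
    {ε : ℝ} (hε : 0 < ε) :
    ∃ Y, TorusField r Y ∧ CsClose s ε X Y ∧ OnPeriodicOrbit Y p :=
  closing hr hX htan htr hp s hs hε

end Pool.Agent.Results.MP_2f875b_an.PlanarFoliation
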