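import Pool.Agent.Lib.MP_2f875b_anF.Main

/-! # `C^s` closing on the torus for two step extensions of a periodic flow

For instance for all fields on the torus of dimension three of the form
`φ(x) (1, g(x₁, x₂), h(x₁, x₂, x₃))`. -/

set_option autoImplicit false

namespace Pool.Agent.Results.MP_2f875b_an.TwoStep

open Clo

theorem result {n : ℕ} [NeZero n] {r : WithTop ℕ∞} (hr : 2 ≤ r)
    {X : EuclideanSpace ℝ (Fin n) → EuclideanSpace ℝ (Fin n)} (hX : TorusField r X)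
    (h0 : ∀ x, 0 < X x 0) (I : Set (Fin n))
    (hI : ∀ i ∈ I, ∀ x y, x 0 = y 0 → x i = y i → X x i / X x 0 = X y i / X y 0)
    (hJ : ∀ j ∉ I, ∀ x y, x 0 = y 0 → (∀ i ∈ I, x i = y i) → x j = y j →
      X x j / X x 0 = X y j / X y 0)
    {p : EuclideanSpace ℝ (Fin n)} (hp : Recurrent X p) (s : ℕ)
    (hs : (s : WithTop ℕ∞) ≤ r) {ε : ℝ} (hε : 0 < ε) :
    ∃ Y, TorusField r Y ∧ CsClose s ε X Y ∧ OnPeriodicOrbit Y p :=
  twostep_pos hr hX h0 I hI hJ hp s hs hε

end Pool.Agent.Results.MP_2f875b_an.TwoStep
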